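import Pool.Agent.N502.FR.Stm

set_option autoImplicit false

/-! Project FR, leaf CHE (helper769): exponential moment bound for a race. -/

open Finset MeasureTheory

namespace Pool.Agent.N769.FR_CHE

open Pool.Agent.N502.FR

theorem posA {A : Finset ℕ} (hA : Pos A) : 1 ≤ ∏ a ∈ A, (a : ℝ) / (a - 1 / 2) := by
  have : ∀ a ∈ A, (1 : ℝ) ≤ (a : ℝ) / (a - 1 / 2) := by
    intro a ha
    have h1 : (1 : ℝ) ≤ a := by exact_mod_cast hA a ha
    rw [le_div_iff₀ (by linarith)]
    linarith
  have h2 := Finset.prod_le_prod (s := A) (f := fun _ => (1 : ℝ)) (fun _ _ => zero_le_one) this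
  simpa using h2

theorem posB {B : Finset ℕ} (hB : Pos B) : 0 < ∏ b ∈ B, (b : ℝ) / (b + 1 / 2) := by
  apply Finset.prod_pos
  intro b hb
  have h1 : (1 : ℝ) ≤ b := by exact_mod_cast hB b hb
  apply div_pos <;> linarith

theorem pos_erase {A : Finset ℕ} (hA : Pos A) (a : ℕ) : Pos (A.erase a) := fun x hx =>
  hA x (Finset.mem_of_mem_erase hx)

theorem aux (K : Finset ℕ → Finset ℕ → ℝ) (hK : Race K) : ∀ n : ℕ, ∀ A B : Finset ℕ,
    A.card + B.card ≤ n → Pos A → Pos B → (A ∪ B).Nonempty →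
    1 - K A B ≤ (∏ a ∈ A, (a : ℝ) / (a - 1 / 2)) * ∏ b ∈ B, (b : ℝ) / (b + 1 / 2) := by
  intro n
  induction n with
  | zero =>
    intro A B hn hA hB hne
    have h1 : A = ∅ := by rw [← Finset.card_eq_zero]; omega
    have h2 : B = ∅ := by rw [← Finset.card_eq_zero]; omega
    subst h1 h2
    simp at hne
  | succ n ih =>
    intro A B hn hA hB hne
    rcases A.eq_empty_or_nonempty with rfl | hA0
    · have hB0 : B.Nonempty := by simpa using hne
      rw [hK.right B hB hB0, sub_self]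
      simp only [Finset.prod_empty, one_mul]
      exact (posB hB).le
    rcases B.eq_empty_or_nonempty with rfl | hB0
    · rw [hK.left A hA hA0, sub_zero]
      simp only [Finset.prod_empty, mul_one]
      exact posA hA
    obtain ⟨a, ha⟩ := hA0
    obtain ⟨b, hb⟩ := hB0
    have ha1 : (1 : ℝ) ≤ a := by exact_mod_cast hA a ha
    have hb1 : (1 : ℝ) ≤ b := by exact_mod_cast hB b hb
    have hst := hK.step A B a b hA hB ha hb
    have hcA : (A.erase a).card = A.card - 1 := Finset.card_erase_of_mem ha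
    have hcB : (B.erase b).card = B.card - 1 := Finset.card_erase_of_mem hb
    have hA1 : 1 ≤ A.card := Finset.card_pos.2 ⟨a, ha⟩
    have hB1 : 1 ≤ B.card := Finset.card_pos.2 ⟨b, hb⟩
    have e1 := ih (A.erase a) B (by omega) (pos_erase hA a) hB
      ⟨b, Finset.mem_union_right _ hb⟩
    have e2 := ih A (B.erase b) (by omega) hA (pos_erase hB b)
      ⟨a, Finset.mem_union_left _ ha⟩
    have pA := Finset.mul_prod_erase A (fun a : ℕ => (a : ℝ) / (a - 1 / 2)) ha
    have pB := Finset.mul_prod_erase B (fun b : ℕ => (b : ℝ) / (b + 1 / 2)) hb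
    set PA := ∏ a ∈ A.erase a, (a : ℝ) / (a - 1 / 2) with hPA
    set PB := ∏ b ∈ B.erase b, (b : ℝ) / (b + 1 / 2) with hPB
    set QA := ∏ a ∈ A, (a : ℝ) / (a - 1 / 2) with hQA
    set QB := ∏ b ∈ B, (b : ℝ) / (b + 1 / 2) with hQB
    have hne1 : (a : ℝ) - 1 / 2 ≠ 0 := by linarith
    have hne2 : (b : ℝ) + 1 / 2 ≠ 0 := by linarith
    have k1 : (a : ℝ) * PA = (a - 1 / 2) * QA := by
      rw [← pA, ← mul_assoc, mul_div_cancel₀ _ hne1]
    have k2 : (b : ℝ) * PB = (b + 1 / 2) * QB := by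
      rw [← pB, ← mul_assoc, mul_div_cancel₀ _ hne2]
    have f1 : (a : ℝ) * (1 - K (A.erase a) B) ≤ (a - 1 / 2) * QA * QB := by
      calc (a : ℝ) * (1 - K (A.erase a) B) ≤ a * (PA * QB) :=
            mul_le_mul_of_nonneg_left e1 (by linarith)
        _ = (a - 1 / 2) * QA * QB := by rw [← mul_assoc, k1]
    have f2 : (b : ℝ) * (1 - K A (B.erase b)) ≤ (b + 1 / 2) * QA * QB := by
      calc (b : ℝ) * (1 - K A (B.erase b)) ≤ b * (QA * PB) :=
            mul_le_mul_of_nonneg_left e2 (by linarith)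
        _ = (b + 1 / 2) * QA * QB := by
            have : (b : ℝ) * (QA * PB) = QA * (b * PB) := by ring
            rw [this, k2]
            ring
    have f3 : ((a : ℝ) + b) * (1 - K A B) ≤ (a + b) * (QA * QB) := by
      have : ((a : ℝ) + b) * (1 - K A B) =
          a * (1 - K (A.erase a) B) + b * (1 - K A (B.erase b)) := by linarith
      rw [this]
      calc _ ≤ (a - 1 / 2) * QA * QB + (b + 1 / 2) * QA * QB := add_le_add f1 f2
        _ = (a + b) * (QA * QB) := by ring
    exact le_of_mul_le_mul_left f3 (by linarith)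

theorem main : S_CHE := by
  intro K hK A B hA hB hne
  exact aux K hK _ A B le_rfl hA hB hne

end Pool.Agent.N769.FR_CHE
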