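import Pool.Agent.N646.RO.Stm3

/-!
Project RQ (helper646), E1: the second moment over all configurations.
-/

set_option autoImplicit false

namespace Pool.Agent.N769.RQ_E1

open Finset Filter Topology Pool.Agent.N646.RO

open Classical in
/-- exchange of the sums -/
theorem exchange {ι : Type} [Fintype ι] [DecidableEq ι] (T₁ : ℕ) (I : Finset ℕ)
    (R : ℕ → ℕ → Prop) (b : ℕ → ℝ) :
    ∑ H ∈ Fintype.piFinset (fun _ : ι => range T₁),
      ∑ n ∈ I.filter (fun n : ℕ => ∀ x, R n (H x)), b n =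
    ∑ n ∈ I, (((range T₁).filter (fun t => R n t)).card : ℝ) ^ (Fintype.card ι) * b n := by
  simp only [sum_filter]
  rw [sum_comm]
  refine sum_congr rfl fun n _ => ?_
  rw [← sum_filter, sum_const, nsmul_eq_mul]
  congr 1
  have h1 : (Fintype.piFinset (fun _ : ι => range T₁)).filter (fun H => ∀ x, R n (H x)) =
      Fintype.piFinset (fun _ : ι => (range T₁).filter (fun t => R n t)) := by
    ext H
    simp only [mem_filter, Fintype.mem_piFinset, mem_range]
    constructor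
    · rintro ⟨h, h'⟩ x
      exact ⟨h x, h' x⟩
    · intro h
      exact ⟨fun x => (h x).1, fun x => (h x).2⟩
  rw [h1, Fintype.card_piFinset, prod_const, card_univ]
  push_cast
  rfl

theorem main (hW : S_WB) (hB : S_BB) : S_E1 := by
  classical
  intro T K s M₀ δ lam hδ hlam hM₀
  obtain ⟨CW, hCW, h1⟩ := hW δ lam M₀ (2 * (T * K)) hδ hlam hM₀
  obtain ⟨CB, hCB, h2⟩ := hB δ s 4 hδ
  refine ⟨Real.sqrt (CW * CB), Real.sqrt_pos.2 (mul_pos hCW hCB), ?_⟩
  filter_upwards [h1, h2, eventually_ge_atTop 2] with N h1 h2 hN T₁ hT1 hT2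
  have k1 := h1 T₁ hT1 hT2
  have hlog : 0 < Real.log N := Real.log_pos (by exact_mod_cast (by omega : 1 < N))
  have hex := exchange (ι := Fin T × Fin K) T₁ (Icc (N / 18) (2 * N))
    (fun n t => Rgh δ N (n + M₀ * t))
    (fun n => (((range (⌊Real.log N⌋₊ + s + 1)).filter
      (fun j : ℕ => Rgh δ N (n - j))).card : ℝ) ^ 2)
  have hcard : Fintype.card (Fin T × Fin K) = T * K := by
    rw [Fintype.card_prod, Fintype.card_fin, Fintype.card_fin]
  rw [hcard] at hex
  obtain ⟨L, hL⟩ : ∃ L, L = ∑ n ∈ Icc (N / 18) (2 * N),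
      (((range T₁).filter (fun t : ℕ => Rgh δ N (n + M₀ * t))).card : ℝ) ^ (T * K) *
      (((range (⌊Real.log N⌋₊ + s + 1)).filter
      (fun j : ℕ => Rgh δ N (n - j))).card : ℝ) ^ 2 := ⟨_, rfl⟩
  have hL2 : L ≤ Real.sqrt (CW * CB) * N * (T₁ / Real.log N) ^ (T * K) := by
    have h3 := sum_mul_sq_le_sq_mul_sq (Icc (N / 18) (2 * N))
      (fun n : ℕ => (((range T₁).filter
        (fun t : ℕ => Rgh δ N (n + M₀ * t))).card : ℝ) ^ (T * K))
      (fun n : ℕ => (((range (⌊Real.log N⌋₊ + s + 1)).filter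
        (fun j : ℕ => Rgh δ N (n - j))).card : ℝ) ^ 2)
    simp only [← pow_mul] at h3
    rw [mul_comm (T * K) 2] at h3
    have h4 : (2 * 2 : ℕ) = 4 := rfl
    rw [h4] at h3
    rw [← hL] at h3
    have hL0 : 0 ≤ L := by
      rw [hL]
      exact sum_nonneg fun n _ => mul_nonneg (pow_nonneg (Nat.cast_nonneg _) _)
        (pow_nonneg (Nat.cast_nonneg _) _)
    have h5 : L ^ 2 ≤ (CW * N * (T₁ / Real.log N) ^ (2 * (T * K))) * (CB * N) :=
      h3.trans (mul_le_mul k1 h2 (sum_nonneg fun n _ => pow_nonneg (Nat.cast_nonneg _) _)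
        (by positivity))
    have h6 : (Real.sqrt (CW * CB) * N * (T₁ / Real.log N) ^ (T * K)) ^ 2 =
        (CW * N * (T₁ / Real.log N) ^ (2 * (T * K))) * (CB * N) := by
      rw [mul_pow, mul_pow, Real.sq_sqrt (mul_pos hCW hCB).le, ← pow_mul, mul_comm (T * K) 2]
      ring
    rw [← h6] at h5
    exact (pow_le_pow_iff_left₀ hL0 (by positivity) two_ne_zero).1 h5
  rw [hL, ← hex] at hL2
  convert hL2 using 4

end Pool.Agent.N769.RQ_E1
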