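import Pool.Agent.N212.KS.Stm

/-!
# The ample height is bounded by the canonical heights (by helper769)
-/

set_option autoImplicit false

namespace Pool.Agent.N769.KS

open Pool.Agent.N212.KS

theorem t_SUM.{u, v, w, z} : Pool.Agent.N212.KS.S_SUM.{u, v, w, z} := by
  intro X N G ι _ _ _ _ _ _ D P E Z c hGood hc hmul
  obtain ⟨_, _, A, B, hA, hH⟩ := hGood
  choose C hC using hc
  have hCK : ∀ i, C i ≤ ∑ j, |C j| := fun i => (le_abs_self _).trans
    (Finset.single_le_sum (f := fun i => |C i|) (fun j _ => abs_nonneg (C j)) (Finset.mem_univ i))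
  generalize (∑ j, |C j|) = K at hCK
  have h1 : ∀ i y, y ∉ Z → |c i y - D.h (E.ℓ i) y| ≤ K * √(D.H y) := fun i y hy =>
    (hC i y hy).trans (mul_le_mul_of_nonneg_right (hCK i) (Real.sqrt_nonneg _))
  refine ⟨⟨K, h1⟩, hmul, 2 * A, (A * (Fintype.card ι) * K) ^ 2 + 2 * B, by positivity,
    fun y hy => ?_⟩
  have h2 := hH y hy
  have h3 : ∑ i, D.h (E.ℓ i) y ≤ ∑ i, (c i y + K * √(D.H y)) := Finset.sum_le_sum fun i _ => by
    have := (abs_le.1 (h1 i y hy)).1
    linarith
  rw [Finset.sum_add_distrib, Finset.sum_const, Finset.card_univ, nsmul_eq_mul] at h3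
  have h4 : √(D.H y) ^ 2 = D.H y := Real.sq_sqrt (by linarith [D.one_le_H y])
  have h5 := mul_le_mul_of_nonneg_left h3 hA.le
  have h6 : A * (∑ i, c i y + (Fintype.card ι : ℝ) * (K * √(D.H y))) =
      A * ∑ i, c i y + (A * (Fintype.card ι) * K) * √(D.H y) := by ring
  have h7 : 2 * ((A * (Fintype.card ι) * K) * √(D.H y)) ≤
      D.H y + (A * (Fintype.card ι) * K) ^ 2 := by
    nlinarith [sq_nonneg (√(D.H y) - A * (Fintype.card ι) * K)]
  rw [h6] at h5
  linarith

end Pool.Agent.N769.KS
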