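import Pool.Agent.N585.LB.Defs

/-!
# No ccc order of the class has a LOTS embedding into a fractal order (part 11 of project LB)
-/

set_option linter.all false

namespace Pool.Agent.N769.LB11

open Cardinal Set Pool.Agent.N585.LB

universe u

section letters

variable {T : Type u} [LinearOrder T]

theorem lf_lt_mid (t : T) : lf t < mid T := Sum.Lex.inl_lt_inr _ _

theorem mid_lt_rt (t : T) : mid T < rt t := Sum.Lex.inr_lt_inr_iff.2 (WithBot.bot_lt_coe t)

theorem agree {x : ℕ → Lam T} {z : Lex (ℕ → Lam T)} {n : ℕ} {a b : Lam T}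
    (h1 : toLex (Function.update x n a) ≤ z) (h2 : z ≤ toLex (Function.update x n b)) :
    ∀ i, i < n → ofLex z i = x i := by
  intro i
  induction i using Nat.strong_induction_on with
  | _ i ih =>
    intro hi
    have e1 : ∀ (c : Lam T) j, j ≤ i → Function.update x n c j = x j := by
      intro c j hj
      exact Function.update_of_ne (by omega) _ _
    have h3 : Function.update x n a i ≤ ofLex z i := by
      apply Pi.apply_le_of_toLex (x := Function.update x n a) (y := ofLex z)
      · exact h1
      · intro j hj
        rw [e1 a j hj.le, ih j hj (by omega)]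
    have h4 : ofLex z i ≤ Function.update x n b i := by
      apply Pi.apply_le_of_toLex (x := ofLex z) (y := Function.update x n b)
      · exact h2
      · intro j hj
        rw [e1 b j hj.le, ih j hj (by omega)]
    rw [e1 a i le_rfl] at h3
    rw [e1 b i le_rfl] at h4
    exact le_antisymm h4 h3

/-- Change of one letter. -/
def upd (x : Frac T) (n : ℕ) (a : Lam T) : Frac T :=
  ⟨toLex (Function.update (ofLex x.1) n a), by
    obtain ⟨m, hm⟩ := x.2
    refine ⟨max m (n + 1), fun k hk => ?_⟩
    have h1 : k ≠ n := by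
      have := le_trans (le_max_right m (n + 1)) hk
      omega
    have h2 : m ≤ k := le_trans (le_max_left _ _) hk
    show Function.update (ofLex x.1) n a k = mid T
    rw [Function.update_of_ne h1]
    exact hm k h2⟩

theorem upd_lt {x : Frac T} {n : ℕ} {a : Lam T} (h : a < ofLex x.1 n) : upd x n a < x := by
  show toLex (Function.update (ofLex x.1) n a) < x.1
  exact Pi.toLex_update_lt_self_iff.2 h

theorem lt_upd {x : Frac T} {n : ℕ} {a : Lam T} (h : ofLex x.1 n < a) : x < upd x n a := by
  show x.1 < toLex (Function.update (ofLex x.1) n a)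
  exact Pi.lt_toLex_update_self_iff.2 h

end letters

/-- **LB/11**. -/
theorem stmNoFrac : StmNoFrac.{u} := by
  intro A T _ _ hA hccc ⟨f, hmono, hcont⟩
  obtain ⟨a₀, b₀, hab₀⟩ := hA.nontriv
  rcases isEmpty_or_nonempty T with hT | ⟨⟨t₀⟩⟩
  · -- `T` empty
    have hsub : ∀ x y : Frac T, x = y := by
      have hl : ∀ c : Lam T, c = mid T := by
        intro c
        rcases h : ofLex c with t | t
        · exact isEmptyElim t
        · induction t using WithBot.recBotCoe with
          | bot =>
            rw [mid, ← h]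
            rfl
          | coe t => exact isEmptyElim t
      intro x y
      apply Subtype.ext
      apply (ofLex (α := ℕ → Lam T)).injective
      funext i
      rw [hl (ofLex x.1 i), hl (ofLex y.1 i)]
    exact absurd (hsub (f a₀) (f b₀)) (hmono hab₀).ne
  · letI tA : TopologicalSpace A := Preorder.topology A
    haveI oA : OrderTopology A := ⟨rfl⟩
    letI tF : TopologicalSpace (Frac T) := Preorder.topology (Frac T)
    haveI oF : OrderTopology (Frac T) := ⟨rfl⟩
    haveI : Nontrivial A := ⟨a₀, b₀, hab₀.ne⟩
    have hden : ∀ a b : A, a < b → (Ioo a b).Nonempty := by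
      intro a b hab
      rw [Set.nonempty_iff_ne_empty]
      intro h0
      have := hA.dense a b hab
      rw [h0] at this
      simp at this
      exact absurd this (aleph_pos 1).ne
    haveI : DenselyOrdered A := ⟨fun a b hab => hden a b hab⟩
    have hcont' : Continuous f := hcont
    have hn : ∀ x : A, ∃ n, ∀ m, n ≤ m → ofLex (f x).1 m = mid T := fun x => (f x).2
    choose n hn using hn
    have hI : ∀ x : A, ∃ p : A × A, p.1 < p.2 ∧
        Ioo p.1 p.2 ⊆ f ⁻¹' (Ioo (upd (f x) (n x) (lf t₀)) (upd (f x) (n x) (rt t₀))) := by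
      intro x
      have ho : IsOpen (f ⁻¹' (Ioo (upd (f x) (n x) (lf t₀)) (upd (f x) (n x) (rt t₀)))) :=
        isOpen_Ioo.preimage hcont'
      have hx : x ∈ f ⁻¹' (Ioo (upd (f x) (n x) (lf t₀)) (upd (f x) (n x) (rt t₀))) := by
        refine ⟨upd_lt ?_, lt_upd ?_⟩
        · rw [hn x _ le_rfl]; exact lf_lt_mid t₀
        · rw [hn x _ le_rfl]; exact mid_lt_rt t₀
      obtain ⟨a, b, hab, hsub⟩ := ho.exists_Ioo_subset ⟨x, hx⟩
      exact ⟨(a, b), hab, hsub⟩
    choose p hp1 hp2 using hI
    have hagree : ∀ x z : A, z ∈ Ioo (p x).1 (p x).2 → ∀ i, i < n x →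
        ofLex (f z).1 i = ofLex (f x).1 i := by
      intro x z hz
      have h := hp2 x hz
      exact agree (x := ofLex (f x).1) (z := (f z).1) h.1.le h.2.le
    have heq : ∀ x x' z : A, n x = n x' → z ∈ Ioo (p x).1 (p x).2 → z ∈ Ioo (p x').1 (p x').2 →
        x = x' := by
      intro x x' z hnn hz hz'
      apply hmono.injective
      apply Subtype.ext
      apply (ofLex (α := ℕ → Lam T)).injective
      funext i
      by_cases hi : i < n x
      · rw [← hagree x z hz i hi, hagree x' z hz' i (hnn ▸ hi)]
      · rw [hn x i (not_lt.1 hi), hn x' i (hnn ▸ not_lt.1 hi)]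
    have hcount : ∀ m : ℕ, {x | n x = m}.Countable := by
      intro m
      have hinj : Set.InjOn p {x | n x = m} := by
        intro x hx x' hx' hpp
        obtain ⟨z, hz⟩ := hden _ _ (hp1 x)
        exact heq x x' z (hx.trans hx'.symm) hz (hpp ▸ hz)
      refine Set.countable_of_injective_of_countable_image hinj (hccc _ ?_ ?_)
      · rintro q ⟨x, _, rfl⟩
        exact hden _ _ (hp1 x)
      · rintro q ⟨x, hx, rfl⟩ q' ⟨x', hx', rfl⟩ hne
        rw [Function.onFun, Set.disjoint_left]
        intro z hz hz'
        exact hne (congrArg p (heq x x' z (hx.trans hx'.symm) hz hz'))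
    have huniv : (Set.univ : Set A).Countable := by
      have : (Set.univ : Set A) = ⋃ m : ℕ, {x | n x = m} := by
        ext x
        simp
      rw [this]
      exact Set.countable_iUnion hcount
    have h1 := hA.dense a₀ b₀ hab₀
    have h2 : #(Ioo a₀ b₀) ≤ ℵ₀ := (huniv.mono (Set.subset_univ _)).le_aleph0
    rw [h1] at h2
    exact absurd h2 (not_le.2 aleph0_lt_aleph_one)

end Pool.Agent.N769.LB11
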